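import Pool.Agent.Helper63.P705.NR.Goals

/-!
# MP_705522_gt: packet NR-GE (Gaussian integrals of Dawson type)
-/

namespace Pool.Agent.Helper77.NR

open MeasureTheory Set Filter Topology
open Pool.Agent.Helper63.P705.NR

/-- comparison lemma -/
lemma cmp {g B B' : ℝ → ℝ} {a : ℝ} (hg : Continuous g)
    (h0 : ∫ w in (0 : ℝ)..a, g w ≤ B a) (hB : ∀ u, a ≤ u → HasDerivAt B (B' u) u)
    (h : ∀ u, a ≤ u → g u ≤ B' u) :
    ∀ u, a ≤ u → ∫ w in (0 : ℝ)..u, g w ≤ B u := by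
  have hI : ∀ u, HasDerivAt (fun u => ∫ w in (0 : ℝ)..u, g w) (g u) u := fun u =>
    intervalIntegral.integral_hasDerivAt_right (hg.intervalIntegrable _ _)
      hg.stronglyMeasurable.stronglyMeasurableAtFilter hg.continuousAt
  have hd : ∀ u, a ≤ u → HasDerivAt (fun u => B u - ∫ w in (0 : ℝ)..u, g w) (B' u - g u) u :=
    fun u hu => (hB u hu).sub (hI u)
  have hm : MonotoneOn (fun u => B u - ∫ w in (0 : ℝ)..u, g w) (Ici a) := by
    refine monotoneOn_of_deriv_nonneg (convex_Ici a)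
      (fun u hu => (hd u hu).continuousAt.continuousWithinAt) ?_ ?_
    · intro u hu
      rw [interior_Ici] at hu
      exact (hd u (le_of_lt hu)).differentiableAt.differentiableWithinAt
    · intro u hu
      rw [interior_Ici] at hu
      rw [(hd u (le_of_lt hu)).deriv]
      linarith [h u (le_of_lt hu)]
  intro u hu
  have := hm (mem_Ici.2 le_rfl) (mem_Ici.2 hu) hu
  simp only at this
  linarith

lemma contG : Continuous fun y : ℝ => Real.exp (-(y ^ 2) / 2) := by fun_prop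

lemma contE : Continuous EE := by
  have : ∀ u, HasDerivAt EE (Real.exp (-(u ^ 2) / 2)) u := fun u =>
    intervalIntegral.integral_hasDerivAt_right (contG.intervalIntegrable _ _)
      contG.stronglyMeasurable.stronglyMeasurableAtFilter contG.continuousAt
  exact continuous_iff_continuousAt.2 fun u => (this u).continuousAt

lemma EE_le (w : ℝ) (hw : 0 ≤ w) : EE w ≤ w := by
  have := cmp (g := fun y : ℝ => Real.exp (-(y ^ 2) / 2)) (B := fun u => u) (B' := fun _ => 1)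
    (a := 0) contG (by simp) (fun u _ => hasDerivAt_id u)
    (fun u _ => by
      exact Real.exp_le_one_iff.2 (by nlinarith [sq_nonneg u])) w hw
  exact this

/-- upper Taylor bound of `e^(-x)`. -/
lemma exp_neg_le (x : ℝ) (hx : 0 ≤ x) :
    Real.exp (-x) ≤ 1 - x + x ^ 2 / 2 - x ^ 3 / 6 + x ^ 4 / 24 := by
  -- successive integration
  have key : ∀ {F F' : ℝ → ℝ}, (∀ u, HasDerivAt F (F' u) u) → F 0 = 0 → (∀ u, 0 ≤ u → 0 ≤ F' u) →
      ∀ u, 0 ≤ u → 0 ≤ F u := by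
    intro F F' hF h0 hn u hu
    have hm : MonotoneOn F (Ici 0) := by
      refine monotoneOn_of_deriv_nonneg (convex_Ici 0)
        (fun u _ => (hF u).continuousAt.continuousWithinAt)
        (fun u _ => (hF u).differentiableAt.differentiableWithinAt) ?_
      intro u hu
      rw [interior_Ici] at hu
      rw [(hF u).deriv]
      exact hn u (le_of_lt hu)
    have := hm (mem_Ici.2 le_rfl) (mem_Ici.2 hu) hu
    rwa [h0] at this
  have hE : ∀ u : ℝ, HasDerivAt (fun u => Real.exp (-u)) (-Real.exp (-u)) u := fun u => by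
    have := (hasDerivAt_neg u).exp
    simpa using this
  have h0 : ∀ u : ℝ, 0 ≤ u → 0 ≤ 1 - Real.exp (-u) := fun u hu => by
    have : Real.exp (-u) ≤ 1 := Real.exp_le_one_iff.2 (by linarith)
    linarith
  have h1 : ∀ u : ℝ, 0 ≤ u → 0 ≤ Real.exp (-u) - 1 + u := by
    refine key (F := fun u => Real.exp (-u) - 1 + u) (F' := fun u => 1 - Real.exp (-u)) ?_ ?_ h0
    · intro u
      have := ((hE u).sub_const 1).add (hasDerivAt_id u)
      exact this.congr_deriv (by ring)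
    · simp
  have h2 : ∀ u : ℝ, 0 ≤ u → 0 ≤ 1 - u + u ^ 2 / 2 - Real.exp (-u) := by
    refine key (F := fun u => 1 - u + u ^ 2 / 2 - Real.exp (-u))
      (F' := fun u => Real.exp (-u) - 1 + u) ?_ ?_ h1
    · intro u
      have := (((hasDerivAt_id u).const_sub 1).add ((hasDerivAt_pow 2 u).div_const 2)).sub (hE u)
      exact this.congr_deriv (by simp; ring)
    · simp
  have h3 : ∀ u : ℝ, 0 ≤ u → 0 ≤ Real.exp (-u) - (1 - u + u ^ 2 / 2 - u ^ 3 / 6) := by
    refine key (F := fun u => Real.exp (-u) - (1 - u + u ^ 2 / 2 - u ^ 3 / 6))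
      (F' := fun u => 1 - u + u ^ 2 / 2 - Real.exp (-u)) ?_ ?_ h2
    · intro u
      have := (hE u).sub ((((hasDerivAt_id u).const_sub 1).add
        ((hasDerivAt_pow 2 u).div_const 2)).sub ((hasDerivAt_pow 3 u).div_const 6))
      exact this.congr_deriv (by simp; ring)
    · simp
  have h4 : ∀ u : ℝ, 0 ≤ u → 0 ≤ 1 - u + u ^ 2 / 2 - u ^ 3 / 6 + u ^ 4 / 24 - Real.exp (-u) := by
    refine key (F := fun u => 1 - u + u ^ 2 / 2 - u ^ 3 / 6 + u ^ 4 / 24 - Real.exp (-u))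
      (F' := fun u => Real.exp (-u) - (1 - u + u ^ 2 / 2 - u ^ 3 / 6)) ?_ ?_ h3
    · intro u
      have := (((((hasDerivAt_id u).const_sub 1).add
        ((hasDerivAt_pow 2 u).div_const 2)).sub ((hasDerivAt_pow 3 u).div_const 6)).add
        ((hasDerivAt_pow 4 u).div_const 24)).sub (hE u)
      exact this.congr_deriv (by simp; ring)
    · simp
  linarith [h4 x hx]

lemma EE_poly (w : ℝ) (hw : 0 ≤ w) :
    EE w ≤ w - w ^ 3 / 6 + w ^ 5 / 40 - w ^ 7 / 336 + w ^ 9 / 3456 := by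
  refine cmp (g := fun y : ℝ => Real.exp (-(y ^ 2) / 2))
    (B := fun w => w - w ^ 3 / 6 + w ^ 5 / 40 - w ^ 7 / 336 + w ^ 9 / 3456)
    (B' := fun w => 1 - w ^ 2 / 2 + w ^ 4 / 8 - w ^ 6 / 48 + w ^ 8 / 384)
    (a := 0) contG (by simp) (fun u _ => ?_) (fun u _ => ?_) w hw
  · have := ((((hasDerivAt_id u).sub ((hasDerivAt_pow 3 u).div_const 6)).add
      ((hasDerivAt_pow 5 u).div_const 40)).sub ((hasDerivAt_pow 7 u).div_const 336)).add
      ((hasDerivAt_pow 9 u).div_const 3456)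
    exact this.congr_deriv (by simp; ring)
  · have := exp_neg_le (u ^ 2 / 2) (by positivity)
    rw [show -(u ^ 2) / 2 = -(u ^ 2 / 2) by ring]
    refine this.trans (le_of_eq ?_)
    ring

lemma EE_sqrt (w : ℝ) (hw : 0 ≤ w) : 2 * EE w ≤ Real.sqrt (2 * Real.pi) := by
  have h1 : ∫ x in Ioi (0 : ℝ), Real.exp (-(1 / 2) * x ^ 2) = Real.sqrt (Real.pi / (1 / 2)) / 2 :=
    integral_gaussian_Ioi (1 / 2)
  have hint : Integrable fun x : ℝ => Real.exp (-(1 / 2) * x ^ 2) :=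
    integrable_exp_neg_mul_sq (by norm_num)
  have h2 : EE w ≤ ∫ x in Ioi (0 : ℝ), Real.exp (-(1 / 2) * x ^ 2) := by
    unfold EE
    rw [intervalIntegral.integral_of_le hw]
    have e : ∀ y : ℝ, Real.exp (-(y ^ 2) / 2) = Real.exp (-(1 / 2) * y ^ 2) := fun y => by
      congr 1; ring
    simp only [e]
    exact setIntegral_mono_set hint.integrableOn
      (ae_of_all _ fun x => (Real.exp_pos _).le) (Ioc_subset_Ioi_self.eventuallyLE)
  rw [h1] at h2
  have h3 : Real.pi / (1 / 2) = 2 * Real.pi := by ring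
  rw [h3] at h2
  linarith

lemma hexp (u : ℝ) : HasDerivAt (fun u => Real.exp (u ^ 2 / 2)) (u * Real.exp (u ^ 2 / 2)) u := by
  have := ((hasDerivAt_pow 2 u).div_const 2).exp
  exact this.congr_deriv (by simp; ring)

lemma contI1 : Continuous fun w : ℝ => Real.exp (w ^ 2 / 2) := by fun_prop

lemma contI2 : Continuous fun w : ℝ => Real.exp (w ^ 2 / 2) * EE w := contI1.mul contE

/-- Dawson: polynomial supersolution -/
lemma I1_poly (u : ℝ) (hu : 0 ≤ u) : ∫ w in (0 : ℝ)..u, Real.exp (w ^ 2 / 2) ≤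
    (u - u ^ 3 / 3 + u ^ 5 / 15 - u ^ 7 / 105 + u ^ 9 / 945) * Real.exp (u ^ 2 / 2) := by
  refine cmp (g := fun w : ℝ => Real.exp (w ^ 2 / 2))
    (B := fun u => (u - u ^ 3 / 3 + u ^ 5 / 15 - u ^ 7 / 105 + u ^ 9 / 945) * Real.exp (u ^ 2 / 2))
    (B' := fun u => (1 + u ^ 10 / 945) * Real.exp (u ^ 2 / 2))
    (a := 0) contI1 (by simp) (fun u _ => ?_) (fun u _ => ?_) u hu
  · have := (((((hasDerivAt_id u).sub ((hasDerivAt_pow 3 u).div_const 3)).add
      ((hasDerivAt_pow 5 u).div_const 15)).sub ((hasDerivAt_pow 7 u).div_const 105)).add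
      ((hasDerivAt_pow 9 u).div_const 945)).mul (hexp u)
    exact this.congr_deriv (by simp; ring)
  · have h1 : 0 < Real.exp (u ^ 2 / 2) := Real.exp_pos _
    have h2 : 0 ≤ u ^ 10 / 945 := by positivity
    nlinarith

lemma polyP (s : ℝ) (h0 : 0 ≤ s) (h1 : s ≤ 3.24) :
    s - s ^ 2 / 3 + s ^ 3 / 15 - s ^ 4 / 105 + s ^ 5 / 945 ≤ 1.45 := by
  have hd : ∀ u : ℝ, HasDerivAt (fun s : ℝ => s - s ^ 2 / 3 + s ^ 3 / 15 - s ^ 4 / 105 + s ^ 5 / 945)
      (1 - 2 * u / 3 + u ^ 2 / 5 - 4 * u ^ 3 / 105 + u ^ 4 / 189) u := by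
    intro u
    have := ((((hasDerivAt_id u).sub ((hasDerivAt_pow 2 u).div_const 3)).add
      ((hasDerivAt_pow 3 u).div_const 15)).sub ((hasDerivAt_pow 4 u).div_const 105)).add
      ((hasDerivAt_pow 5 u).div_const 945)
    exact this.congr_deriv (by simp; ring)
  have hm : MonotoneOn (fun s : ℝ => s - s ^ 2 / 3 + s ^ 3 / 15 - s ^ 4 / 105 + s ^ 5 / 945)
      (Ici 0) := by
    refine monotoneOn_of_deriv_nonneg (convex_Ici 0)
        (fun u _ => (hd u).continuousAt.continuousWithinAt)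
        (fun u _ => (hd u).differentiableAt.differentiableWithinAt) ?_
    intro u hu
    rw [(hd u).deriv]
    nlinarith [sq_nonneg (1 - u / 3 - u ^ 2 / 20), sq_nonneg (u ^ 2 - 3 * u), sq_nonneg (u ^ 2 - 4 * u),
      sq_nonneg (u - 3), sq_nonneg (u ^ 2 - 9), sq_nonneg (u ^ 2 - 36 / 10 * u), sq_nonneg (u - 2)]
  have := hm (mem_Ici.2 h0) (mem_Ici.2 (by norm_num : (0 : ℝ) ≤ 3.24)) h1
  simp only at this
  refine this.trans ?_
  norm_num

lemma part1 (u : ℝ) (hu : 0 ≤ u) :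
    u * ∫ w in (0 : ℝ)..u, Real.exp (w ^ 2 / 2) ≤ 1.45 * Real.exp (u ^ 2 / 2) := by
  have small : ∀ u : ℝ, 0 ≤ u → u ≤ 1.8 →
      u * ∫ w in (0 : ℝ)..u, Real.exp (w ^ 2 / 2) ≤ 1.45 * Real.exp (u ^ 2 / 2) := by
    intro u hu h18
    have h1 := mul_le_mul_of_nonneg_left (I1_poly u hu) hu
    refine h1.trans ?_
    have h2 := polyP (u ^ 2) (by positivity) (by nlinarith)
    have h3 : 0 < Real.exp (u ^ 2 / 2) := Real.exp_pos _
    have h4 : u * ((u - u ^ 3 / 3 + u ^ 5 / 15 - u ^ 7 / 105 + u ^ 9 / 945) * Real.exp (u ^ 2 / 2)) =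
      (u ^ 2 - (u ^ 2) ^ 2 / 3 + (u ^ 2) ^ 3 / 15 - (u ^ 2) ^ 4 / 105 + (u ^ 2) ^ 5 / 945) *
        Real.exp (u ^ 2 / 2) := by ring
    rw [h4]
    exact mul_le_mul_of_nonneg_right h2 h3.le
  rcases le_total u 1.8 with h | h
  · exact small u hu h
  · have h0 : (0 : ℝ) < u := by linarith
    have hb := cmp (g := fun w : ℝ => Real.exp (w ^ 2 / 2))
      (B := fun u => 1.45 * (Real.exp (u ^ 2 / 2) / u))
      (B' := fun u => 1.45 * ((u * Real.exp (u ^ 2 / 2) * u - Real.exp (u ^ 2 / 2) * 1) / u ^ 2))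
      (a := 1.8) contI1 (by
        have := small 1.8 (by norm_num) le_rfl
        rw [← mul_div_assoc, le_div_iff₀ (by norm_num)]
        linarith)
      (fun u hu => by
        have h0 : u ≠ 0 := by intro h; rw [h] at hu; norm_num at hu
        exact ((hexp u).div (hasDerivAt_id u) h0).const_mul 1.45)
      (fun u hu => by
        have h0 : 0 < u := by linarith
        have h3 : 0 < Real.exp (u ^ 2 / 2) := Real.exp_pos _
        rw [← mul_div_assoc, le_div_iff₀ (by positivity)]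
        have : 0 ≤ (0.45 * u ^ 2 - 1.45) * Real.exp (u ^ 2 / 2) :=
          mul_nonneg (by nlinarith) h3.le
        nlinarith) u h
    have h5 := mul_le_mul_of_nonneg_left hb h0.le
    refine h5.trans (le_of_eq ?_)
    field_simp

/-- polynomial supersolution for `G0` -/
lemma I2_poly (u : ℝ) (hu : 0 ≤ u) : 2 * ∫ w in (0 : ℝ)..u, Real.exp (w ^ 2 / 2) * EE w ≤
    (u ^ 2 - u ^ 4 / 3 + 23 / 360 * u ^ 6 - (23 / 360 + 1 / 168) / 8 * u ^ 8 +
      ((23 / 360 + 1 / 168) / 8 + 1 / 1728) / 10 * u ^ 10) * Real.exp (u ^ 2 / 2) := by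
  have e : 2 * ∫ w in (0 : ℝ)..u, Real.exp (w ^ 2 / 2) * EE w =
      ∫ w in (0 : ℝ)..u, 2 * (Real.exp (w ^ 2 / 2) * EE w) := by
    rw [intervalIntegral.integral_const_mul]
  rw [e]
  refine cmp (g := fun w : ℝ => 2 * (Real.exp (w ^ 2 / 2) * EE w))
    (B := fun u => (u ^ 2 - u ^ 4 / 3 + 23 / 360 * u ^ 6 - (23 / 360 + 1 / 168) / 8 * u ^ 8 +
      ((23 / 360 + 1 / 168) / 8 + 1 / 1728) / 10 * u ^ 10) * Real.exp (u ^ 2 / 2))
    (B' := fun u => (2 * (u - u ^ 3 / 6 + u ^ 5 / 40 - u ^ 7 / 336 + u ^ 9 / 3456) +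
      ((23 / 360 + 1 / 168) / 8 + 1 / 1728) / 10 * u ^ 11) * Real.exp (u ^ 2 / 2))
    (a := 0) (contI2.const_mul 2) (by simp) (fun u _ => ?_) (fun u hu => ?_) u hu
  · have := (((((hasDerivAt_pow 2 u).sub ((hasDerivAt_pow 4 u).div_const 3)).add
      ((hasDerivAt_pow 6 u).const_mul (23 / 360))).sub
      ((hasDerivAt_pow 8 u).const_mul ((23 / 360 + 1 / 168) / 8))).add
      ((hasDerivAt_pow 10 u).const_mul (((23 / 360 + 1 / 168) / 8 + 1 / 1728) / 10))).mul (hexp u)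
    exact this.congr_deriv (by simp; ring)
  · have h1 : 0 < Real.exp (u ^ 2 / 2) := Real.exp_pos _
    have h2 : 0 ≤ u ^ 11 := by positivity
    have h3 := EE_poly u hu
    have h4 : 0 ≤ (2 * (u - u ^ 3 / 6 + u ^ 5 / 40 - u ^ 7 / 336 + u ^ 9 / 3456 - EE u) +
      ((23 / 360 + 1 / 168) / 8 + 1 / 1728) / 10 * u ^ 11) * Real.exp (u ^ 2 / 2) := by
      refine mul_nonneg ?_ h1.le
      have : (0 : ℝ) ≤ ((23 / 360 + 1 / 168) / 8 + 1 / 1728) / 10 * u ^ 11 :=
        mul_nonneg (by norm_num) h2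
      linarith
    linarith

lemma polyB (s : ℝ) (h0 : 0 ≤ s) (h1 : s ≤ 3.3) :
    s - s ^ 2 / 3 + 23 / 360 * s ^ 3 - (23 / 360 + 1 / 168) / 8 * s ^ 4 +
      ((23 / 360 + 1 / 168) / 8 + 1 / 1728) / 10 * s ^ 5 ≤ 1.38 := by
  have hd : ∀ u : ℝ, HasDerivAt (fun s : ℝ => s - s ^ 2 / 3 + 23 / 360 * s ^ 3 -
      (23 / 360 + 1 / 168) / 8 * s ^ 4 + ((23 / 360 + 1 / 168) / 8 + 1 / 1728) / 10 * s ^ 5)
      (1 - 2 * u / 3 + 23 / 120 * u ^ 2 - (23 / 360 + 1 / 168) / 2 * u ^ 3 +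
        ((23 / 360 + 1 / 168) / 8 + 1 / 1728) / 2 * u ^ 4) u := by
    intro u
    have := ((((hasDerivAt_id u).sub ((hasDerivAt_pow 2 u).div_const 3)).add
      ((hasDerivAt_pow 3 u).const_mul (23 / 360))).sub
      ((hasDerivAt_pow 4 u).const_mul ((23 / 360 + 1 / 168) / 8))).add
      ((hasDerivAt_pow 5 u).const_mul (((23 / 360 + 1 / 168) / 8 + 1 / 1728) / 10))
    exact this.congr_deriv (by simp; ring)
  have hm : MonotoneOn (fun s : ℝ => s - s ^ 2 / 3 + 23 / 360 * s ^ 3 -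
      (23 / 360 + 1 / 168) / 8 * s ^ 4 + ((23 / 360 + 1 / 168) / 8 + 1 / 1728) / 10 * s ^ 5)
      (Ici 0) := by
    refine monotoneOn_of_deriv_nonneg (convex_Ici 0)
        (fun u _ => (hd u).continuousAt.continuousWithinAt)
        (fun u _ => (hd u).differentiableAt.differentiableWithinAt) ?_
    intro u hu
    rw [(hd u).deriv]
    nlinarith [sq_nonneg (1 - u / 3 - u ^ 2 / 20), sq_nonneg (u ^ 2 - 3 * u), sq_nonneg (u ^ 2 - 4 * u),
      sq_nonneg (u - 3), sq_nonneg (u ^ 2 - 9), sq_nonneg (u ^ 2 - 36 / 10 * u), sq_nonneg (u - 2)]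
  have := hm (mem_Ici.2 h0) (mem_Ici.2 (by norm_num : (0 : ℝ) ≤ 3.3)) h1
  simp only at this
  refine this.trans ?_
  norm_num

lemma part2 (u : ℝ) (hu : 0 ≤ u) :
    2 * ∫ w in (0 : ℝ)..u, Real.exp (w ^ 2 / 2) * EE w ≤ 1.38 * Real.exp (u ^ 2 / 2) := by
  have small : ∀ u : ℝ, 0 ≤ u → u ^ 2 ≤ 3.3 →
      2 * ∫ w in (0 : ℝ)..u, Real.exp (w ^ 2 / 2) * EE w ≤ 1.38 * Real.exp (u ^ 2 / 2) := by
    intro u hu h
    refine (I2_poly u hu).trans ?_
    have h2 := polyB (u ^ 2) (by positivity) h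
    have h3 : 0 < Real.exp (u ^ 2 / 2) := Real.exp_pos _
    refine mul_le_mul_of_nonneg_right ?_ h3.le
    refine le_trans (le_of_eq ?_) h2
    ring
  rcases le_total (u ^ 2) 3.3 with h | h
  · exact small u hu h
  · have hs0 : 0 ≤ Real.sqrt 3.3 := Real.sqrt_nonneg _
    have hs2 : Real.sqrt 3.3 ^ 2 = 3.3 := Real.sq_sqrt (by norm_num)
    have e : ∀ u : ℝ, 2 * ∫ w in (0 : ℝ)..u, Real.exp (w ^ 2 / 2) * EE w =
        ∫ w in (0 : ℝ)..u, 2 * (Real.exp (w ^ 2 / 2) * EE w) := fun u => by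
      rw [intervalIntegral.integral_const_mul]
    rw [e]
    refine cmp (g := fun w : ℝ => 2 * (Real.exp (w ^ 2 / 2) * EE w))
      (B := fun u => 1.38 * Real.exp (u ^ 2 / 2)) (B' := fun u => 1.38 * (u * Real.exp (u ^ 2 / 2)))
      (a := Real.sqrt 3.3) (contI2.const_mul 2) ?_ (fun u _ => (hexp u).const_mul 1.38) ?_ u
      ((Real.sqrt_le_left hu).2 h)
    · rw [← e]
      exact small _ hs0 hs2.le
    · intro u hu
      have h1 : 0 < Real.exp (u ^ 2 / 2) := Real.exp_pos _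
      have hu0 : 0 ≤ u := hs0.trans hu
      have h2 := EE_sqrt u hu0
      have h3 : Real.sqrt (2 * Real.pi) ≤ 1.38 * u := by
        rw [Real.sqrt_le_left (by positivity)]
        have h4 : 3.3 ≤ u ^ 2 := by
          rw [← hs2]; exact pow_le_pow_left₀ hs0 hu 2
        have h5 := Real.pi_lt_d4
        nlinarith
      nlinarith

lemma part3 (u : ℝ) (hu : 0 ≤ u) :
    u * (2 * ∫ w in (0 : ℝ)..u, Real.exp (w ^ 2 / 2) * EE w) ≤ 3.12 * Real.exp (u ^ 2 / 2) := by
  have small : ∀ u : ℝ, 0 ≤ u → u ≤ 2.26 →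
      u * (2 * ∫ w in (0 : ℝ)..u, Real.exp (w ^ 2 / 2) * EE w) ≤ 3.12 * Real.exp (u ^ 2 / 2) := by
    intro u hu h
    have h1 := mul_le_mul_of_nonneg_left (part2 u hu) hu
    refine h1.trans ?_
    have h3 : 0 < Real.exp (u ^ 2 / 2) := Real.exp_pos _
    nlinarith
  rcases le_total u 2.26 with h | h
  · exact small u hu h
  · have h0 : (0 : ℝ) < u := by linarith
    have e : ∀ u : ℝ, 2 * ∫ w in (0 : ℝ)..u, Real.exp (w ^ 2 / 2) * EE w =
        ∫ w in (0 : ℝ)..u, 2 * (Real.exp (w ^ 2 / 2) * EE w) := fun u => by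
      rw [intervalIntegral.integral_const_mul]
    have hb := cmp (g := fun w : ℝ => 2 * (Real.exp (w ^ 2 / 2) * EE w))
      (B := fun u => 3.12 * (Real.exp (u ^ 2 / 2) / u))
      (B' := fun u => 3.12 * ((u * Real.exp (u ^ 2 / 2) * u - Real.exp (u ^ 2 / 2) * 1) / u ^ 2))
      (a := 2.26) (contI2.const_mul 2) (by
        have := small 2.26 (by norm_num) le_rfl
        rw [e] at this
        rw [← mul_div_assoc, le_div_iff₀ (by norm_num)]
        linarith)
      (fun u hu => by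
        have h0 : u ≠ 0 := by intro h; rw [h] at hu; norm_num at hu
        exact ((hexp u).div (hasDerivAt_id u) h0).const_mul 3.12)
      (fun u hu => by
        have h0 : 0 < u := by linarith
        have h3 : 0 < Real.exp (u ^ 2 / 2) := Real.exp_pos _
        have h2 := EE_sqrt u h0.le
        have h4 : Real.sqrt (2 * Real.pi) ≤ 2.507 := by
          rw [Real.sqrt_le_left (by norm_num)]
          have h5 := Real.pi_lt_d4
          nlinarith
        have h6 : 2 * EE u ≤ 2.507 := h2.trans h4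
        rw [← mul_div_assoc, le_div_iff₀ (by positivity)]
        have h7 : 2.507 * u ^ 2 ≤ 3.12 * (u ^ 2 - 1) := by nlinarith
        have h8 : 2 * EE u * u ^ 2 ≤ 3.12 * (u ^ 2 - 1) :=
          (mul_le_mul_of_nonneg_right h6 (by positivity)).trans h7
        have h9 := mul_le_mul_of_nonneg_right h8 h3.le
        nlinarith) u h
    rw [← e] at hb
    have h5 := mul_le_mul_of_nonneg_left hb h0.le
    refine h5.trans (le_of_eq ?_)
    field_simp

theorem gE : Pool.Agent.Helper63.P705.NR.GE :=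
  ⟨EE_le, part1, part2, part3⟩

end Pool.Agent.Helper77.NR
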